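import Mathlib

/-! Fourier decay of a probability measure on the line bounds the mass of short intervals. -/

set_option autoImplicit false

open MeasureTheory Filter Topology

namespace Pool.Agent.W851.St

lemma exp_kernel (z : ℝ) :
    (1 + z ^ 2)⁻¹ = (∫ g in Set.Ioi (0 : ℝ), Complex.exp ((-1 + z * Complex.I) * g)).re := by
  rw [integral_exp_mul_complex_Ioi (by simp)]
  simp only [Complex.ofReal_zero, mul_zero, Complex.exp_zero]
  have h1 : (-1 : ℂ) / (-1 + z * Complex.I) = ((1 + z ^ 2)⁻¹ : ℝ) * (1 + z * Complex.I) := by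
    have hne : (-1 + z * Complex.I : ℂ) ≠ 0 := by
      intro h
      have := congrArg Complex.re h
      simp at this
    have hne2 : ((1 + z ^ 2 : ℝ) : ℂ) ≠ 0 := by
      norm_cast; positivity
    rw [div_eq_iff hne, Complex.ofReal_inv]
    field_simp
    push_cast
    ring_nf
    rw [Complex.I_sq]
    ring
  rw [h1, Complex.re_ofReal_mul]
  simp

lemma small_ball {ν : Measure ℝ} [IsProbabilityMeasure ν] {C : ℝ}
    (h : ∀ θ : ℝ, 1 ≤ |θ| →
      ‖∫ y, Complex.exp ((θ * y : ℝ) * Complex.I) ∂ν‖ ≤ C * |θ| ^ (-(1 / 4 : ℝ))) :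
    ∃ C' : ℝ, 0 ≤ C' ∧ ∀ a δ : ℝ, 0 < δ →
      ν.real (Set.Icc (a - δ) (a + δ)) ≤ C' * δ ^ (1 / 4 : ℝ) := by
  set C₁ := max C 1 with hC1
  have hC1p : 1 ≤ C₁ := le_max_right _ _
  have hdec : ∀ θ : ℝ, 0 < θ →
      ‖∫ y, Complex.exp ((θ * y : ℝ) * Complex.I) ∂ν‖ ≤ C₁ * θ ^ (-(1 / 4 : ℝ)) := by
    intro θ hθ
    rcases le_total 1 θ with h1 | h1
    · have := h θ (by rwa [abs_of_pos hθ])
      rw [abs_of_pos hθ] at this
      exact this.trans (mul_le_mul_of_nonneg_right (le_max_left _ _) (by positivity))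
    · have e1 : ‖∫ y, Complex.exp ((θ * y : ℝ) * Complex.I) ∂ν‖ ≤ 1 := by
        have h2 : ∀ᵐ y ∂ν, ‖Complex.exp ((θ * y : ℝ) * Complex.I)‖ ≤ 1 :=
          Eventually.of_forall fun y => (Complex.norm_exp_ofReal_mul_I _).le
        have := norm_integral_le_of_norm_le_const h2
        simpa using this
      have e2 : (1 : ℝ) ≤ θ ^ (-(1 / 4 : ℝ)) :=
        Real.one_le_rpow_of_pos_of_le_one_of_nonpos hθ h1 (by norm_num)
      calc _ ≤ (1 : ℝ) * 1 := by linarith
        _ ≤ C₁ * θ ^ (-(1 / 4 : ℝ)) := mul_le_mul hC1p e2 zero_le_one (by linarith)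
  set G : ℝ := ∫ g in Set.Ioi (0 : ℝ), Real.exp (-g) * g ^ ((3 / 4 : ℝ) - 1) with hG
  have hGi := Real.GammaIntegral_convergent (s := 3 / 4) (by norm_num)
  have hGnn : 0 ≤ G := by
    rw [hG]
    refine setIntegral_nonneg measurableSet_Ioi fun g hg => ?_
    have : (0 : ℝ) < g := hg
    positivity
  refine ⟨2 * C₁ * G, by positivity, ?_⟩
  intro a δ hδ
  -- the kernel
  set F : ℝ → ℝ → ℂ := fun y g => Complex.exp ((-1 + ((y - a) / δ : ℝ) * Complex.I) * g) with hF
  have hFn : ∀ y g : ℝ, ‖F y g‖ = Real.exp (-g) := by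
    intro y g
    rw [hF]
    simp only
    rw [Complex.norm_exp]
    congr 1
    simp
  have hFm : Measurable (Function.uncurry F) := by
    rw [hF]
    unfold Function.uncurry
    fun_prop
  have hFi : Integrable (Function.uncurry F) (ν.prod (volume.restrict (Set.Ioi 0))) := by
    have h1 : Integrable (fun p : ℝ × ℝ => Real.exp (-p.2)) (ν.prod (volume.restrict (Set.Ioi 0))) :=
      (Integrable.comp_snd (f := fun g : ℝ => Real.exp (-g)) (integrableOn_exp_neg_Ioi 0) ν)
    refine h1.mono' hFm.aestronglyMeasurable (Eventually.of_forall fun p => ?_)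
    exact (hFn p.1 p.2).le
  have hK : ∀ y, (1 + ((y - a) / δ) ^ 2)⁻¹ = (∫ g in Set.Ioi (0 : ℝ), F y g).re := by
    intro y
    exact exp_kernel _
  have hKi : Integrable (fun y => ∫ g in Set.Ioi (0 : ℝ), F y g) ν := hFi.integral_prod_left
  have s1 : ν.real (Set.Icc (a - δ) (a + δ)) ≤ ∫ y, 2 * (1 + ((y - a) / δ) ^ 2)⁻¹ ∂ν := by
    rw [← integral_indicator_one measurableSet_Icc]
    refine integral_mono_of_nonneg (Eventually.of_forall fun y => ?_) ?_
      (Eventually.of_forall fun y => ?_)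
    · exact Set.indicator_nonneg (fun _ _ => zero_le_one) _
    · refine Integrable.const_mul ?_ 2
      have : (fun y => (1 + ((y - a) / δ) ^ 2)⁻¹) = fun y => (∫ g in Set.Ioi (0 : ℝ), F y g).re := by
        funext y; exact hK y
      rw [this]
      exact hKi.re
    · simp only
      by_cases hy : y ∈ Set.Icc (a - δ) (a + δ)
      · rw [Set.indicator_of_mem hy]
        have h2 : ((y - a) / δ) ^ 2 ≤ 1 := by
          rw [sq_le_one_iff_abs_le_one, abs_div, abs_of_pos hδ, div_le_one hδ, abs_le]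
          constructor <;> linarith [hy.1, hy.2]
        have h3 : (2 : ℝ)⁻¹ ≤ (1 + ((y - a) / δ) ^ 2)⁻¹ :=
          inv_anti₀ (by positivity) (by linarith)
        simp only [Pi.one_apply]
        linarith
      · rw [Set.indicator_of_notMem hy]
        positivity
  refine s1.trans ?_
  rw [integral_const_mul]
  have s2 : ∫ y, (1 + ((y - a) / δ) ^ 2)⁻¹ ∂ν = (∫ y, (∫ g in Set.Ioi (0 : ℝ), F y g) ∂ν).re := by
    rw [← Complex.reCLM_apply, ← ContinuousLinearMap.integral_comp_comm _ hKi]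
    exact integral_congr_ae (Eventually.of_forall fun y => by
      simp only [Complex.reCLM_apply]; exact hK y)
  rw [s2, integral_integral_swap hFi]
  have s3 : ∀ g : ℝ, g ∈ Set.Ioi (0 : ℝ) → ‖∫ y, F y g ∂ν‖ ≤
      C₁ * δ ^ (1 / 4 : ℝ) * (Real.exp (-g) * g ^ ((3 / 4 : ℝ) - 1)) := by
    intro g hg
    have hg' : (0 : ℝ) < g := hg
    have e1 : ∀ y, F y g = (Complex.exp (-g) * Complex.exp (-(a * g / δ : ℝ) * Complex.I)) *
        Complex.exp (((g / δ) * y : ℝ) * Complex.I) := by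
      intro y
      rw [hF]
      simp only
      rw [← Complex.exp_add, ← Complex.exp_add]
      congr 1
      push_cast
      field_simp
      ring
    simp_rw [e1]
    rw [integral_const_mul, norm_mul, norm_mul]
    have e2 : ‖Complex.exp (-(a * g / δ : ℝ) * Complex.I)‖ = 1 := by
      rw [show (-((a * g / δ : ℝ) : ℂ)) = ((-(a * g / δ) : ℝ) : ℂ) by push_cast; ring]
      exact Complex.norm_exp_ofReal_mul_I _
    have e3 : ‖Complex.exp (-(g : ℂ))‖ = Real.exp (-g) := by
      rw [Complex.norm_exp]; simp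
    rw [e2, e3, mul_one]
    have e4 := hdec (g / δ) (by positivity)
    calc Real.exp (-g) * ‖∫ y, Complex.exp (((g / δ) * y : ℝ) * Complex.I) ∂ν‖
        ≤ Real.exp (-g) * (C₁ * (g / δ) ^ (-(1 / 4 : ℝ))) :=
          mul_le_mul_of_nonneg_left e4 (Real.exp_nonneg _)
      _ = C₁ * δ ^ (1 / 4 : ℝ) * (Real.exp (-g) * g ^ ((3 / 4 : ℝ) - 1)) := by
          rw [Real.div_rpow hg'.le hδ.le, Real.rpow_neg hδ.le, div_inv_eq_mul]
          norm_num
          ring
  calc 2 * (∫ g in Set.Ioi (0 : ℝ), ∫ y, F y g ∂ν).re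
      ≤ 2 * ‖∫ g in Set.Ioi (0 : ℝ), ∫ y, F y g ∂ν‖ := by
        linarith [Complex.re_le_norm (∫ g in Set.Ioi (0 : ℝ), ∫ y, F y g ∂ν)]
    _ ≤ 2 * ∫ g in Set.Ioi (0 : ℝ),
          C₁ * δ ^ (1 / 4 : ℝ) * (Real.exp (-g) * g ^ ((3 / 4 : ℝ) - 1)) := by
        refine mul_le_mul_of_nonneg_left ?_ (by norm_num)
        refine norm_integral_le_of_norm_le (hGi.const_mul _) ?_
        exact (ae_restrict_iff' measurableSet_Ioi).2 (Eventually.of_forall s3)
    _ = 2 * C₁ * G * δ ^ (1 / 4 : ℝ) := by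
        rw [integral_const_mul, hG]; ring

end Pool.Agent.W851.St
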