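import Pool.Agent.W851.St.Proc
import Pool.Agent.W851.St.Fou

/-! No measure on the graph has Fourier decay of order `1/4`. -/

set_option autoImplicit false

open MeasureTheory Filter Topology ProbabilityTheory
open scoped ENNReal NNReal

namespace Pool.Agent.W851.St

lemma final_limit {W C : ℝ} (hW : 0 < W) (hC : 0 ≤ C) :
    ∃ R : ℝ, 1 ≤ R ∧ ((1 + R ^ 2) * W + 1) * (C * (2 * (R ^ 15)⁻¹ * W) ^ (1 / 4 : ℝ)) < 1 := by
  set D : ℝ := (2 * W + 1) * (C * (2 * W) ^ (1 / 4 : ℝ)) with hD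
  have hDnn : 0 ≤ D := by positivity
  obtain ⟨m, hm⟩ := exists_nat_gt (max D 1)
  have hm1 : (1 : ℝ) < m := (le_max_right _ _).trans_lt hm
  have hmD : D < m := (le_max_left _ _).trans_lt hm
  have hm0 : (0 : ℝ) < m := by linarith
  refine ⟨(m : ℝ) ^ 4, one_le_pow₀ hm1.le, ?_⟩
  have e1 : (2 * ((((m : ℝ) ^ 4) ^ 15))⁻¹ * W) ^ (1 / 4 : ℝ) =
      (2 * W) ^ (1 / 4 : ℝ) * ((m : ℝ) ^ 15)⁻¹ := by
    rw [show 2 * ((((m : ℝ) ^ 4) ^ 15))⁻¹ * W = (2 * W) * (((m : ℝ) ^ 15)⁻¹) ^ (4 : ℝ) by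
      rw [show (4 : ℝ) = ((4 : ℕ) : ℝ) by norm_num, Real.rpow_natCast]; ring]
    rw [Real.mul_rpow (by positivity) (by positivity), ← Real.rpow_mul (by positivity)]
    norm_num
  rw [e1]
  have e2 : (1 + ((m : ℝ) ^ 4) ^ 2) * W + 1 ≤ (2 * W + 1) * (m : ℝ) ^ 8 := by
    have h8 : (1 : ℝ) ≤ (m : ℝ) ^ 8 := one_le_pow₀ hm1.le
    rw [← pow_mul]
    norm_num
    nlinarith
  calc ((1 + ((m : ℝ) ^ 4) ^ 2) * W + 1) * (C * ((2 * W) ^ (1 / 4 : ℝ) * ((m : ℝ) ^ 15)⁻¹))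
      ≤ ((2 * W + 1) * (m : ℝ) ^ 8) * (C * ((2 * W) ^ (1 / 4 : ℝ) * ((m : ℝ) ^ 15)⁻¹)) :=
        mul_le_mul_of_nonneg_right e2 (by positivity)
    _ = D * ((m : ℝ) ^ 7)⁻¹ := by
        rw [hD]; field_simp
    _ ≤ D * (m : ℝ)⁻¹ := by
        refine mul_le_mul_of_nonneg_left ?_ hDnn
        apply inv_anti₀ hm0
        exact le_self_pow₀ hm1.le (by norm_num)
    _ < 1 := by
        rw [← div_eq_mul_inv, div_lt_one hm0]; exact hmD

theorem no_decay {ω : Om (ℝ × ℝ)} (hω : ω ∈ Good) :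
    ¬ ∃ (μ : Measure (ℝ × ℝ)) (K : Set (ℝ × ℝ)),
          IsProbabilityMeasure μ ∧ IsCompact K ∧
          K ⊆ {p : ℝ × ℝ | p.1 ∈ Set.Icc (0 : ℝ) 1 ∧ p.2 = X p.1 ω} ∧
          μ Kᶜ = 0 ∧
          ∃ C : ℝ, ∀ ξ : ℝ × ℝ, 1 ≤ ‖ξ‖ →
            ‖∫ p, Complex.exp (((ξ.1 * p.1 + ξ.2 * p.2 : ℝ) : ℂ) * Complex.I) ∂μ‖
              ≤ C * ‖ξ‖ ^ (-(1 / 2 : ℝ) / 2) := by
  rintro ⟨μ, K, hμ, hKc, hK, hK0, C, hC⟩
  have hν : IsProbabilityMeasure (μ.map Prod.snd) :=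
    Measure.isProbabilityMeasure_map measurable_snd.aemeasurable
  obtain ⟨C', hC'0, hC'⟩ := small_ball (ν := μ.map Prod.snd) (C := C) (by
    intro θ hθ
    have h1 := hC (0, θ) (by simpa [Prod.norm_def] using hθ)
    rw [integral_map measurable_snd.aemeasurable (by fun_prop)]
    have e1 : ‖((0 : ℝ), θ)‖ = |θ| := by simp [Prod.norm_def]
    rw [e1] at h1
    norm_num at h1
    norm_num
    exact h1)
  set W : ℝ := (∑' i : Ix ω, ind 1 (pt ω i).1 * (1 + (pt ω i).2 ^ 2)⁻¹) + 1 with hWdef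
  have hsum : Summable fun i : Ix ω => ind 1 (pt ω i).1 * (1 + (pt ω i).2 ^ 2)⁻¹ := by
    have := good_summable hω 1
    simpa using this
  have hW0 : 0 ≤ ∑' i : Ix ω, ind 1 (pt ω i).1 * (1 + (pt ω i).2 ^ 2)⁻¹ :=
    tsum_nonneg fun i => mul_nonneg (ind_nonneg _ _) (by positivity)
  have hW : 0 < W := by linarith
  obtain ⟨R, hR, hlt⟩ := final_limit hW hC'0
  obtain ⟨n, y, hn, hcov⟩ := path_cover (u := fun i : Ix ω => (pt ω i).1)
    (r := fun i => (pt ω i).2) (W := W) hR hsum (by linarith)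
  set δ : ℝ := 2 * (R ^ 15)⁻¹ * W with hδ
  have hδ0 : 0 < δ := by have : (0 : ℝ) < R := by linarith
                         positivity
  have hsub : K ⊆ Prod.snd ⁻¹' (⋃ k ∈ Finset.range (n + 1), Set.Icc (y k - δ) (y k + δ)) := by
    intro p hp
    obtain ⟨hp1, hp2⟩ := hK hp
    obtain ⟨k, hk, hk2⟩ := hcov p.1 hp1
    rw [← X_of_good hω, ← hp2] at hk2
    simp only [Set.mem_preimage, Set.mem_iUnion]
    refine ⟨k, Finset.mem_range.2 (by omega), ?_⟩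
    rw [abs_le] at hk2
    constructor <;> linarith [hk2.1, hk2.2]
  have hμK : μ K = 1 := by
    rw [← prob_compl_eq_zero_iff hKc.measurableSet]
    exact hK0
  have h1 : (1 : ℝ) ≤ (μ.map Prod.snd).real
      (⋃ k ∈ Finset.range (n + 1), Set.Icc (y k - δ) (y k + δ)) := by
    have hms : MeasurableSet (⋃ k ∈ Finset.range (n + 1), Set.Icc (y k - δ) (y k + δ)) :=
      Finset.measurableSet_biUnion _ fun k _ => measurableSet_Icc
    have h2 : (1 : ℝ≥0∞) ≤ (μ.map Prod.snd)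
        (⋃ k ∈ Finset.range (n + 1), Set.Icc (y k - δ) (y k + δ)) := by
      rw [Measure.map_apply measurable_snd hms, ← hμK]
      exact measure_mono hsub
    have h3 := ENNReal.toReal_mono (measure_ne_top _ _) h2
    simpa [Measure.real] using h3
  have h2 : (μ.map Prod.snd).real
      (⋃ k ∈ Finset.range (n + 1), Set.Icc (y k - δ) (y k + δ)) ≤
      (n + 1) * (C' * δ ^ (1 / 4 : ℝ)) := by
    refine (measureReal_biUnion_finset_le _ _).trans ?_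
    refine (Finset.sum_le_card_nsmul _ _ _ fun k _ => hC' (y k) δ hδ0).trans ?_
    rw [Finset.card_range, nsmul_eq_mul]
    push_cast
    exact le_rfl
  have h3 : ((n : ℝ) + 1) * (C' * δ ^ (1 / 4 : ℝ)) ≤
      ((1 + R ^ 2) * W + 1) * (C' * δ ^ (1 / 4 : ℝ)) :=
    mul_le_mul_of_nonneg_right (by linarith) (by positivity)
  linarith

end Pool.Agent.W851.St
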