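import Pool.Agent.W851.St.Path

/-! The characteristic exponent of the jump measure. -/

set_option autoImplicit false

open MeasureTheory Filter Topology

namespace Pool.Agent.W851.St

lemma norm_exp_psi_sub_one_le (θ x : ℝ) :
    ‖Complex.exp ((θ * psi x : ℝ) * Complex.I) - 1‖ ≤ (4 + 2 * |θ|) * (1 + x ^ 2)⁻¹ := by
  have hp : (0 : ℝ) < (1 + x ^ 2)⁻¹ := by positivity
  by_cases hx : 1 < |x|
  · have h1 := Real.norm_exp_I_mul_ofReal_sub_one_le (x := θ * psi x)
    rw [mul_comm] at h1
    refine h1.trans ?_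
    rw [Real.norm_eq_abs, abs_mul]
    have h2 := abs_psi_le le_rfl hx
    norm_num at h2
    calc |θ| * |psi x| ≤ |θ| * (2 * (1 + x ^ 2)⁻¹) := mul_le_mul_of_nonneg_left h2 (abs_nonneg _)
      _ ≤ (4 + 2 * |θ|) * (1 + x ^ 2)⁻¹ := by nlinarith
  · push Not at hx
    have h1 : ‖Complex.exp ((θ * psi x : ℝ) * Complex.I) - 1‖ ≤ 2 := by
      refine (norm_sub_le _ _).trans ?_
      rw [Complex.norm_exp_ofReal_mul_I, norm_one]; norm_num
    have h2 : (2 : ℝ)⁻¹ ≤ (1 + x ^ 2)⁻¹ := by
      apply inv_anti₀ (by positivity)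
      have : x ^ 2 ≤ 1 := by rw [sq_le_one_iff_abs_le_one]; exact hx
      linarith
    have h3 : 0 ≤ 2 * |θ| * (1 + x ^ 2)⁻¹ := by positivity
    nlinarith

lemma integrable_exp_psi (θ : ℝ) :
    Integrable fun x : ℝ => Complex.exp ((θ * psi x : ℝ) * Complex.I) - 1 := by
  refine (integrable_inv_one_add_sq.const_mul (4 + 2 * |θ|)).mono' ?_
    (Eventually.of_forall fun x => norm_exp_psi_sub_one_le θ x)
  have : Measurable fun x : ℝ => Complex.exp ((θ * psi x : ℝ) * Complex.I) - 1 := by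
    have := measurable_psi
    fun_prop
  exact this.aestronglyMeasurable

/-- the constant -/
noncomputable def K0 : ℝ := ∫ x : ℝ, (1 - Real.cos (psi x))

lemma cos_eq_re (x : ℝ) :
    1 - Real.cos (psi x) = -(Complex.exp (((1 : ℝ) * psi x : ℝ) * Complex.I) - 1).re := by
  rw [one_mul, Complex.sub_re, Complex.exp_ofReal_mul_I_re]; simp

lemma integrable_cos : Integrable fun x : ℝ => 1 - Real.cos (psi x) := by
  simp_rw [cos_eq_re]
  exact (integrable_exp_psi 1).re.neg

lemma K0_pos : 0 < K0 := by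
  unfold K0
  rw [integral_pos_iff_support_of_nonneg (fun x => by
    show (0 : ℝ) ≤ 1 - Real.cos (psi x)
    linarith [Real.cos_le_one (psi x)]) integrable_cos]
  have h1 : Set.Ioo (1 : ℝ) 2 ⊆ Function.support fun x : ℝ => 1 - Real.cos (psi x) := by
    intro x hx
    rw [Function.mem_support]
    have hp : 0 < psi x := by unfold psi; have := hx.1; positivity
    have hl : psi x ≤ 1 := by
      unfold psi
      apply inv_le_one_of_one_le₀
      exact one_le_pow₀ hx.1.le
    have : Real.cos (psi x) < 1 := by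
      have := Real.cos_lt_cos_of_nonneg_of_le_pi (x := 0) (y := psi x) le_rfl
        (by linarith [Real.pi_gt_three]) hp
      rwa [Real.cos_zero] at this
    intro h
    linarith
  refine lt_of_lt_of_le ?_ (measure_mono h1)
  rw [Real.volume_Ioo]
  simp

lemma int_one : ∫ x : ℝ, (Complex.exp ((psi x : ℝ) * Complex.I) - 1) = -(K0 : ℂ) := by
  have hi := integrable_exp_psi 1
  simp only [one_mul] at hi
  have hin : Integrable fun x : ℝ => Complex.exp ((psi (-x) : ℝ) * Complex.I) - 1 :=
    hi.comp_neg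
  have e1 : ∫ x : ℝ, (Complex.exp ((psi (-x) : ℝ) * Complex.I) - 1) =
      ∫ x : ℝ, (Complex.exp ((psi x : ℝ) * Complex.I) - 1) :=
    integral_neg_eq_self (fun x : ℝ => Complex.exp ((psi x : ℝ) * Complex.I) - 1) volume
  have e2 : ∫ x : ℝ, ((Complex.exp ((psi x : ℝ) * Complex.I) - 1) +
      (Complex.exp ((psi (-x) : ℝ) * Complex.I) - 1)) = 2 * -(K0 : ℂ) := by
    unfold K0
    rw [← integral_complex_ofReal, ← integral_neg, ← integral_const_mul]
    congr 1
    funext x
    rw [psi_neg]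
    push_cast
    rw [Complex.cos]
    rw [show (-(psi x : ℂ)) * Complex.I = -((psi x : ℂ) * Complex.I) by ring]
    ring
  rw [integral_add hi hin, e1] at e2
  linear_combination e2 / 2

lemma int_exp_psi (θ : ℝ) :
    ∫ x : ℝ, (Complex.exp ((θ * psi x : ℝ) * Complex.I) - 1) =
      -((|θ| ^ (1 / 17 : ℝ) * K0 : ℝ) : ℂ) := by
  rcases eq_or_ne θ 0 with h0 | h0
  · subst h0
    simp only [zero_mul, Complex.ofReal_zero, Complex.exp_zero, sub_self, integral_zero, abs_zero]
    rw [Real.zero_rpow (by norm_num)]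
    simp
  · set a : ℝ := |θ| ^ (1 / 17 : ℝ) with ha
    have hapos : 0 < a := Real.rpow_pos_of_pos (abs_pos.2 h0) _
    have ha17 : a ^ 17 = |θ| := by
      rw [ha, ← Real.rpow_natCast, ← Real.rpow_mul (abs_nonneg _)]
      norm_num
    obtain ⟨c, hc, hc2⟩ : ∃ c : ℝ, |c⁻¹| = a ∧ ∀ x, θ * psi x = psi (c * x) := by
      rcases lt_or_gt_of_ne h0 with hneg | hpos
      · refine ⟨-a⁻¹, ?_, ?_⟩
        · rw [inv_neg, inv_inv, abs_neg, abs_of_pos hapos]
        · intro x
          rw [neg_mul, psi_neg]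
          unfold psi
          rw [mul_pow, inv_pow, ha17, abs_of_neg hneg, mul_inv, inv_inv]
          ring
      · refine ⟨a⁻¹, ?_, ?_⟩
        · rw [inv_inv, abs_of_pos hapos]
        · intro x
          unfold psi
          rw [mul_pow, inv_pow, ha17, abs_of_pos hpos, mul_inv, inv_inv]
    simp_rw [hc2]
    rw [Measure.integral_comp_mul_left (fun x : ℝ => Complex.exp ((psi x : ℝ) * Complex.I) - 1) c,
      hc, int_one]
    rw [Complex.real_smul]
    push_cast
    ring

end Pool.Agent.W851.St
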