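import Mathlib

/-! Poisson random measures: construction, characteristic functional, mean. -/

set_option autoImplicit false
set_option linter.unusedSectionVars false
set_option linter.deprecated false

open MeasureTheory Filter Topology ProbabilityTheory
open scoped ENNReal NNReal

namespace Pool.Agent.W851.St

section infprod
variable {ι : Type} {X : ι → Type} [∀ i, MeasurableSpace (X i)] (μ : ∀ i, Measure (X i))
  [∀ i, IsProbabilityMeasure (μ i)]

lemma integral_infinitePi_prod (s : Finset ι) (g : ∀ i, X i → ℂ) (hg : ∀ i, Measurable (g i)) :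
    ∫ x, ∏ i ∈ s, g i (x i) ∂(Measure.infinitePi μ) = ∏ i ∈ s, ∫ x, g i x ∂(μ i) := by
  have h1 : ∀ x : ∀ i, X i, ∏ i ∈ s, g i (x i) =
      (fun y : ∀ i : s, X i => ∏ i : s, g i (y i)) (s.restrict x) := by
    intro x
    simp only [Finset.restrict]
    rw [← Finset.prod_coe_sort]
  simp_rw [h1]
  rw [← integral_map (φ := s.restrict) (f := fun y : ∀ i : s, X i => ∏ i : s, g i (y i))
    (Finset.measurable_restrict s).aemeasurable]
  · rw [Measure.infinitePi_map_restrict,
      integral_fintype_prod_eq_prod (μ := fun i : s => μ i) (fun i : s => g i)]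
    exact Finset.prod_coe_sort s fun i => ∫ x, g i x ∂(μ i)
  · exact (Finset.measurable_prod Finset.univ (f := fun (i : s) (y : ∀ i : s, X i) => g i (y i))
      fun i _ => (hg i).comp (measurable_pi_apply i)).aestronglyMeasurable

end infprod

variable {E : Type} [MeasurableSpace E]

/-- one block: a Poisson number of i.i.d. points -/
noncomputable def blk (l : ℝ≥0) (κ : Measure E) [IsProbabilityMeasure κ] :
    Measure (ℕ × (ℕ → E)) :=
  (poissonMeasure l).prod (Measure.infinitePi fun _ : ℕ => κ)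

instance (l : ℝ≥0) (κ : Measure E) [IsProbabilityMeasure κ] : IsProbabilityMeasure (blk l κ) := by
  unfold blk; infer_instance

lemma meas_blk_prod {g : E → ℂ} (hg : Measurable g) :
    Measurable fun q : ℕ × (ℕ → E) => ∏ k ∈ Finset.range q.1, g (q.2 k) := by
  refine measurable_from_prod_countable_right fun n => ?_
  exact Finset.measurable_prod (Finset.range n) (f := fun k (y : ℕ → E) => g (y k))
    fun k _ => hg.comp (measurable_pi_apply k)

lemma meas_blk_sum {f : E → ℝ≥0∞} (hf : Measurable f) :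
    Measurable fun q : ℕ × (ℕ → E) => ∑ k ∈ Finset.range q.1, f (q.2 k) := by
  refine measurable_from_prod_countable_right fun n => ?_
  exact Finset.measurable_sum (Finset.range n) (f := fun k (y : ℕ → E) => f (y k))
    fun k _ => hf.comp (measurable_pi_apply k)

lemma meas_blk_sumR {f : E → ℝ} (hf : Measurable f) :
    Measurable fun q : ℕ × (ℕ → E) => ∑ k ∈ Finset.range q.1, f (q.2 k) := by
  refine measurable_from_prod_countable_right fun n => ?_
  exact Finset.measurable_sum (Finset.range n) (f := fun k (y : ℕ → E) => f (y k))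
    fun k _ => hf.comp (measurable_pi_apply k)

lemma blk_char (l : ℝ≥0) (κ : Measure E) [IsProbabilityMeasure κ] {g : E → ℂ}
    (hg : Measurable g) (h1 : ∀ x, ‖g x‖ ≤ 1) :
    ∫ q, ∏ k ∈ Finset.range q.1, g (q.2 k) ∂(blk l κ) =
      Complex.exp (l * (∫ x, g x ∂κ - 1)) := by
  have hint : Integrable (fun q : ℕ × (ℕ → E) => ∏ k ∈ Finset.range q.1, g (q.2 k)) (blk l κ) := by
    refine Integrable.of_bound (meas_blk_prod hg).aestronglyMeasurable 1
      (Eventually.of_forall fun q => ?_)
    rw [norm_prod]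
    exact Finset.prod_le_one (fun _ _ => norm_nonneg _) fun _ _ => h1 _
  unfold blk at hint ⊢
  rw [integral_prod _ hint]
  simp only
  have h2 : ∀ n : ℕ, ∫ y : ℕ → E, ∏ k ∈ Finset.range n, g (y k)
      ∂(Measure.infinitePi fun _ : ℕ => κ) = (∫ x, g x ∂κ) ^ n := by
    intro n
    rw [integral_infinitePi_prod (fun _ : ℕ => κ) (Finset.range n) (fun _ => g) fun _ => hg,
      Finset.prod_const, Finset.card_range]
  simp only [h2]
  rw [integral_poissonMeasure]
  set z := ∫ x, g x ∂κ
  have h3 : ∀ n : ℕ, (Real.exp (-l) * (l : ℝ) ^ n / (n.factorial : ℝ)) • z ^ n =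
      Complex.exp (-l) * (((l : ℂ) * z) ^ n / (n.factorial : ℂ)) := by
    intro n
    rw [Complex.real_smul, mul_pow]
    push_cast
    ring
  simp only [h3]
  rw [tsum_mul_left, mul_sub, mul_one, sub_eq_add_neg, Complex.exp_add, mul_comm]
  congr 1
  rw [Complex.exp_eq_exp_ℂ, NormedSpace.exp_eq_tsum_div]

lemma blk_mean (l : ℝ≥0) (κ : Measure E) [IsProbabilityMeasure κ] {f : E → ℝ≥0∞}
    (hf : Measurable f) :
    ∫⁻ q, ∑ k ∈ Finset.range q.1, f (q.2 k) ∂(blk l κ) = l * ∫⁻ x, f x ∂κ := by
  unfold blk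
  rw [lintegral_prod _ (meas_blk_sum hf).aemeasurable]
  simp only
  have h2 : ∀ n : ℕ, ∫⁻ y : ℕ → E, ∑ k ∈ Finset.range n, f (y k)
      ∂(Measure.infinitePi fun _ : ℕ => κ) = n * ∫⁻ x, f x ∂κ := by
    intro n
    rw [lintegral_finsetSum (Finset.range n) (f := fun k (y : ℕ → E) => f (y k))
      fun k _ => hf.comp (measurable_pi_apply k)]
    have : ∀ k : ℕ, ∫⁻ y : ℕ → E, f (y k) ∂(Measure.infinitePi fun _ : ℕ => κ) =
        ∫⁻ x, f x ∂κ := fun k =>
      (measurePreserving_eval_infinitePi (fun _ : ℕ => κ) k).lintegral_comp hf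
    simp only [this, Finset.sum_const, Finset.card_range, nsmul_eq_mul]
  simp only [h2]
  rw [lintegral_mul_const _ (measurable_of_countable _)]
  congr 1
  -- mean of the Poisson law
  rw [poissonMeasure, lintegral_sum_measure]
  simp only [lintegral_smul_measure, lintegral_dirac, smul_eq_mul]
  have h4 : ∑' n : ℕ, ENNReal.ofReal (Real.exp (-l) * (l : ℝ) ^ n / (n.factorial : ℝ)) = 1 := by
    rw [← ENNReal.ofReal_tsum_of_nonneg (fun n => by positivity)
      (hasSum_one_poissonMeasure l).summable, (hasSum_one_poissonMeasure l).tsum_eq,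
      ENNReal.ofReal_one]
  rw [tsum_eq_zero_add' ENNReal.summable]
  have h5 : ∀ n : ℕ, ENNReal.ofReal (Real.exp (-l) * (l : ℝ) ^ (n + 1) / ((n + 1).factorial : ℝ)) *
      ((n + 1 : ℕ) : ℝ≥0∞) =
      ENNReal.ofReal (Real.exp (-l) * (l : ℝ) ^ n / (n.factorial : ℝ)) * l := by
    intro n
    rw [← ENNReal.ofReal_natCast (n + 1), ← ENNReal.ofReal_mul (by positivity),
      ← ENNReal.ofReal_coe_nnreal (p := l), ← ENNReal.ofReal_mul (by positivity)]
    congr 1
    rw [Nat.factorial_succ, pow_succ]
    push_cast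
    field_simp
  simp only [h5]
  rw [ENNReal.tsum_mul_right, h4]
  simp

section prm
variable [Nonempty E] (Λ : Measure E) [SFinite Λ]

/-- the finite pieces -/
noncomputable def fm (b : ℕ) : FiniteMeasure E := ⟨sfiniteSeq Λ b, inferInstance⟩

/-- their masses -/
noncomputable def rate (b : ℕ) : ℝ≥0 := (fm Λ b).mass

/-- their normalisations -/
noncomputable def mark (b : ℕ) : Measure E := ((fm Λ b).normalize : Measure E)

instance (b : ℕ) : IsProbabilityMeasure (mark Λ b) := by unfold mark; infer_instance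

lemma rate_smul (b : ℕ) : sfiniteSeq Λ b = rate Λ b • mark Λ b := by
  have h := (fm Λ b).self_eq_mass_smul_normalize
  have h2 := congrArg (fun μ : FiniteMeasure E => (μ : Measure E)) h
  simpa [fm, rate, mark] using h2

/-- the sample space -/
abbrev Om (E : Type) : Type := ℕ → ℕ × (ℕ → E)

/-- the law of the Poisson random measure with intensity `Λ` -/
noncomputable def PM : Measure (Om E) := Measure.infinitePi fun b => blk (rate Λ b) (mark Λ b)

instance : IsProbabilityMeasure (PM Λ) := by unfold PM; infer_instance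

/-- sum over the points, extended nonnegative values -/
noncomputable def SE (f : E → ℝ≥0∞) (ω : Om E) : ℝ≥0∞ :=
  ∑' b, ∑ k ∈ Finset.range (ω b).1, f ((ω b).2 k)

/-- sum over the points, real values -/
noncomputable def SR (f : E → ℝ) (ω : Om E) : ℝ :=
  ∑' b, ∑ k ∈ Finset.range (ω b).1, f ((ω b).2 k)

lemma meas_SE {f : E → ℝ≥0∞} (hf : Measurable f) : Measurable (SE f) := by
  unfold SE
  exact Measurable.ennreal_tsum fun b => (meas_blk_sum hf).comp (measurable_pi_apply b)

/-- Campbell's formula -/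
theorem campbell {f : E → ℝ≥0∞} (hf : Measurable f) :
    ∫⁻ ω, SE f ω ∂(PM Λ) = ∫⁻ x, f x ∂Λ := by
  unfold SE
  rw [lintegral_tsum (f := fun b (ω : Om E) => ∑ k ∈ Finset.range (ω b).1, f ((ω b).2 k))
    fun b => ((meas_blk_sum hf).comp (measurable_pi_apply b)).aemeasurable]
  have h1 : ∀ b : ℕ, ∫⁻ ω : Om E, ∑ k ∈ Finset.range (ω b).1, f ((ω b).2 k) ∂(PM Λ) =
      ∫⁻ x, f x ∂(sfiniteSeq Λ b) := by
    intro b
    have h2 := (measurePreserving_eval_infinitePi (fun b => blk (rate Λ b) (mark Λ b))
      b).lintegral_comp (meas_blk_sum hf)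
    refine h2.trans ?_
    rw [blk_mean _ _ hf]
    conv_rhs => rw [rate_smul Λ b]
    rw [lintegral_smul_measure]
    rfl
  simp only [h1]
  rw [← lintegral_sum_measure, sum_sfiniteSeq]

lemma summable_of_SE {f : E → ℝ} {ω : Om E} (h : SE (fun x => ‖f x‖ₑ) ω < ∞) :
    Summable fun b => ∑ k ∈ Finset.range (ω b).1, f ((ω b).2 k) := by
  have h1 : ∑' b, (‖∑ k ∈ Finset.range (ω b).1, f ((ω b).2 k)‖ₑ) ≠ ∞ := by
    refine ne_of_lt (lt_of_le_of_lt (ENNReal.tsum_le_tsum fun b => ?_) h)
    exact enorm_sum_le _ _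
  have h2 : Summable fun b => ‖∑ k ∈ Finset.range (ω b).1, f ((ω b).2 k)‖ := by
    have := ENNReal.summable_toReal h1
    simpa using this
  exact h2.of_norm

lemma meas_SR_ind {f : E → ℝ} (hf : Measurable f) {G : Set (Om E)} (hG : MeasurableSet G)
    (h : ∀ ω ∈ G, SE (fun x => ‖f x‖ₑ) ω < ∞) : Measurable (G.indicator (SR f)) := by
  refine measurable_of_tendsto_metrizable (f := fun n => G.indicator fun ω =>
    ∑ b ∈ Finset.range n, ∑ k ∈ Finset.range (ω b).1, f ((ω b).2 k)) (fun n => ?_) ?_
  · exact (Finset.measurable_sum (Finset.range n)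
      (f := fun b (ω : Om E) => ∑ k ∈ Finset.range (ω b).1, f ((ω b).2 k))
      fun b _ => (meas_blk_sumR hf).comp (measurable_pi_apply b)).indicator hG
  · rw [tendsto_pi_nhds]
    intro ω
    by_cases hω : ω ∈ G
    · simp only [Set.indicator_of_mem hω]
      exact (summable_of_SE (h ω hω)).hasSum.tendsto_sum_nat
    · simp only [Set.indicator_of_notMem hω]
      exact tendsto_const_nhds

/-- the characteristic functional -/
theorem char_functional {f : E → ℝ} (hf : Measurable f)
    (hfin : ∀ᵐ ω ∂(PM Λ), SE (fun x => ‖f x‖ₑ) ω < ∞)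
    (hint : Integrable (fun x => Complex.exp (f x * Complex.I) - 1) Λ) :
    ∫ ω, Complex.exp (SR f ω * Complex.I) ∂(PM Λ) =
      Complex.exp (∫ x, (Complex.exp (f x * Complex.I) - 1) ∂Λ) := by
  set g : E → ℂ := fun x => Complex.exp (f x * Complex.I) with hg
  have hgm : Measurable g := by
    simp only [hg]
    exact Complex.measurable_exp.comp ((Complex.measurable_ofReal.comp hf).mul_const _)
  have hg1 : ∀ x, ‖g x‖ = 1 := fun x => Complex.norm_exp_ofReal_mul_I _
  set G : ℕ → Om E → ℂ := fun n ω =>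
    ∏ b ∈ Finset.range n, ∏ k ∈ Finset.range (ω b).1, g ((ω b).2 k) with hG
  have hGI : ∀ n, ∫ ω, G n ω ∂(PM Λ) =
      Complex.exp (∑ b ∈ Finset.range n, ∫ x, (g x - 1) ∂(sfiniteSeq Λ b)) := by
    intro n
    have h1 := integral_infinitePi_prod (fun b => blk (rate Λ b) (mark Λ b)) (Finset.range n)
      (fun _ q => ∏ k ∈ Finset.range q.1, g (q.2 k)) fun _ => meas_blk_prod hgm
    refine h1.trans ?_
    rw [Complex.exp_sum]
    refine Finset.prod_congr rfl fun b _ => ?_
    rw [blk_char _ _ hgm fun x => (hg1 x).le]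
    congr 1
    have hgi : Integrable g (mark Λ b) :=
      Integrable.of_bound hgm.aestronglyMeasurable 1 (Eventually.of_forall fun x => (hg1 x).le)
    have h2 : ∫ x, (g x - 1) ∂(mark Λ b) = ∫ x, g x ∂(mark Λ b) - 1 := by
      rw [integral_sub hgi (integrable_const 1)]
      simp
    conv_rhs => rw [rate_smul Λ b]
    rw [integral_smul_nnreal_measure, h2]
    rfl
  have hlim1 : Tendsto (fun n => ∫ ω, G n ω ∂(PM Λ)) atTop
      (𝓝 (∫ ω, Complex.exp (SR f ω * Complex.I) ∂(PM Λ))) := by
    refine tendsto_integral_of_dominated_convergence (fun _ => 1) (fun n => ?_)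
      (integrable_const 1) (fun n => Eventually.of_forall fun ω => ?_) ?_
    · exact (Finset.measurable_prod (Finset.range n)
        (f := fun b (ω : Om E) => ∏ k ∈ Finset.range (ω b).1, g ((ω b).2 k))
        fun b _ => (meas_blk_prod hgm).comp (measurable_pi_apply b)).aestronglyMeasurable
    · simp only [hG, norm_prod, hg1, Finset.prod_const_one]
      exact le_rfl
    · filter_upwards [hfin] with ω hω
      have h1 := (summable_of_SE hω).hasSum.tendsto_sum_nat
      have h2 : ∀ n, G n ω = Complex.exp (((∑ b ∈ Finset.range n,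
          ∑ k ∈ Finset.range (ω b).1, f ((ω b).2 k) : ℝ) : ℂ) * Complex.I) := by
        intro n
        simp only [hG, hg]
        push_cast
        rw [Finset.sum_mul, Complex.exp_sum]
        refine Finset.prod_congr rfl fun b _ => ?_
        rw [Finset.sum_mul, Complex.exp_sum]
      simp only [h2]
      have h3 : Continuous fun x : ℝ => Complex.exp ((x : ℂ) * Complex.I) := by fun_prop
      exact (h3.tendsto _).comp h1
  have hlim2 : Tendsto (fun n => ∫ ω, G n ω ∂(PM Λ)) atTop
      (𝓝 (Complex.exp (∫ x, (g x - 1) ∂Λ))) := by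
    simp only [hGI]
    refine (Complex.continuous_exp.tendsto _).comp ?_
    have h1 : Integrable (fun x => g x - 1) (Measure.sum (sfiniteSeq Λ)) := by
      rw [sum_sfiniteSeq]; exact hint
    have h2 := hasSum_integral_measure h1
    rw [sum_sfiniteSeq] at h2
    exact h2.tendsto_sum_nat
  exact tendsto_nhds_unique hlim1 hlim2

end prm

end Pool.Agent.W851.St
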