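import Mathlib

/-! Deterministic facts on pure-jump paths built from a countable configuration of points. -/

set_option autoImplicit false

open MeasureTheory Filter Topology

namespace Pool.Agent.W851.St

/-- the jump-size function `x⁻¹⁷` -/
noncomputable def psi (x : ℝ) : ℝ := (x ^ 17)⁻¹

lemma psi_neg (x : ℝ) : psi (-x) = - psi x := by
  unfold psi; rw [Odd.neg_pow (by decide), inv_neg]

lemma measurable_psi : Measurable psi := by unfold psi; fun_prop

lemma abs_psi_le {R x : ℝ} (hR : 1 ≤ R) (hx : R < |x|) :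
    |psi x| ≤ 2 * (R ^ 15)⁻¹ * (1 + x ^ 2)⁻¹ := by
  have h0 : (0 : ℝ) < R := by linarith
  have hx0 : 0 < |x| := by linarith
  have hx2 : 1 < x ^ 2 := by
    rw [← sq_abs]; nlinarith
  have e1 : |psi x| = (|x| ^ 15)⁻¹ * (x ^ 2)⁻¹ := by
    unfold psi
    rw [abs_inv, abs_pow, ← sq_abs x, ← mul_inv, ← pow_add]
  have e2 : (|x| ^ 15)⁻¹ ≤ (R ^ 15)⁻¹ := by
    apply inv_anti₀ (by positivity)
    exact pow_le_pow_left₀ h0.le hx.le 15
  have e3 : (x ^ 2)⁻¹ ≤ 2 * (1 + x ^ 2)⁻¹ := by
    rw [inv_eq_one_div, ← div_eq_mul_inv, div_le_div_iff₀ (by linarith) (by linarith)]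
    linarith
  rw [e1]
  calc (|x| ^ 15)⁻¹ * (x ^ 2)⁻¹ ≤ (R ^ 15)⁻¹ * (2 * (1 + x ^ 2)⁻¹) :=
        mul_le_mul e2 e3 (by positivity) (by positivity)
    _ = _ := by ring

variable {I : Type} (u r : I → ℝ)

/-- `1{0 < v ≤ t}` -/
noncomputable def ind (t v : ℝ) : ℝ := if 0 < v ∧ v ≤ t then 1 else 0

lemma ind_nonneg (t v : ℝ) : 0 ≤ ind t v := by unfold ind; split_ifs <;> norm_num

lemma ind_le_one (t v : ℝ) : ind t v ≤ 1 := by unfold ind; split_ifs <;> norm_num

lemma ind_mono {s t : ℝ} (h : s ≤ t) (v : ℝ) : ind s v ≤ ind t v := by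
  unfold ind
  split_ifs with h1 h2 h2
  · exact le_rfl
  · exact absurd ⟨h1.1, h1.2.trans h⟩ h2
  · norm_num
  · exact le_rfl

lemma measurable_ind (t : ℝ) : Measurable (ind t) := by
  unfold ind
  exact Measurable.ite (measurableSet_lt measurable_const measurable_id |>.inter
    (measurableSet_le measurable_id measurable_const)) measurable_const measurable_const

variable {u r}

lemma summable_path {t : ℝ} (hW : Summable fun i => ind t (u i) * (1 + r i ^ 2)⁻¹) :
    Summable fun i => ind t (u i) * psi (r i) := by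
  refine Summable.of_norm_bounded_eventually (g := fun i => 2 * (ind t (u i) * (1 + r i ^ 2)⁻¹))
    (hW.mul_left 2) ?_
  have h1 := hW.tendsto_cofinite_zero
  have h2 := h1.eventually (gt_mem_nhds (show (0 : ℝ) < 1 / 2 by norm_num))
  filter_upwards [h2] with i hi
  rw [Real.norm_eq_abs, abs_mul, abs_of_nonneg (ind_nonneg _ _)]
  by_cases hc : 0 < u i ∧ u i ≤ t
  · have e : ind t (u i) = 1 := by unfold ind; rw [if_pos hc]
    rw [e] at hi ⊢
    rw [one_mul] at hi
    have h3 : 2 < 1 + r i ^ 2 := by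
      rw [inv_eq_one_div, div_lt_div_iff₀ (by positivity) (by norm_num)] at hi
      linarith
    have h4 : 1 < |r i| := by
      have : 1 < |r i| ^ 2 := by rw [sq_abs]; linarith
      nlinarith [abs_nonneg (r i)]
    have := abs_psi_le le_rfl h4
    norm_num at this
    linarith
  · have e : ind t (u i) = 0 := by unfold ind; rw [if_neg hc]
    rw [e]; simp

/-- the path -/
noncomputable def path (u r : I → ℝ) (t : ℝ) : ℝ := ∑' i, ind t (u i) * psi (r i)

lemma path_zero : path u r 0 = 0 := by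
  unfold path ind
  have : ∀ i, (if 0 < u i ∧ u i ≤ 0 then (1 : ℝ) else 0) * psi (r i) = 0 := by
    intro i
    rw [if_neg (by rintro ⟨h1, h2⟩; linarith), zero_mul]
  simp_rw [this]
  simp

lemma path_cadlag (hW : ∀ T : ℕ, Summable fun i => ind T (u i) * (1 + r i ^ 2)⁻¹) (t : ℝ) :
    ContinuousWithinAt (path u r) (Set.Ici t) t ∧
      ∃ l : ℝ, Tendsto (path u r) (𝓝[<] t) (𝓝 l) := by
  obtain ⟨T, hT⟩ := exists_nat_gt t
  have hb : Summable fun i => ‖ind T (u i) * psi (r i)‖ := (summable_path (hW T)).norm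
  have hbd : ∀ s : ℝ, s < T → ∀ i, ‖ind s (u i) * psi (r i)‖ ≤ ‖ind T (u i) * psi (r i)‖ := by
    intro s hs i
    rw [norm_mul, norm_mul]
    refine mul_le_mul_of_nonneg_right ?_ (norm_nonneg _)
    rw [Real.norm_of_nonneg (ind_nonneg _ _), Real.norm_of_nonneg (ind_nonneg _ _)]
    exact ind_mono hs.le _
  constructor
  · unfold ContinuousWithinAt path
    refine tendsto_tsum_of_dominated_convergence hb ?_ ?_
    · intro i
      refine Tendsto.mul_const _ ?_
      refine tendsto_const_nhds.congr' ?_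
      by_cases hu : t < u i
      · have : ∀ᶠ s : ℝ in 𝓝[Set.Ici t] t, s < u i := nhdsWithin_le_nhds (Iio_mem_nhds hu)
        filter_upwards [this] with s hs
        unfold ind
        rw [if_neg (fun h => absurd h.2 (not_le.2 hu)), if_neg (fun h => absurd h.2 (not_le.2 hs))]
      · push Not at hu
        filter_upwards [self_mem_nhdsWithin] with s hs
        unfold ind
        by_cases h0 : 0 < u i
        · rw [if_pos ⟨h0, hu⟩, if_pos ⟨h0, hu.trans hs⟩]
        · rw [if_neg (fun h => h0 h.1), if_neg (fun h => h0 h.1)]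
    · have : ∀ᶠ s : ℝ in 𝓝[Set.Ici t] t, s < (T : ℝ) := nhdsWithin_le_nhds (Iio_mem_nhds hT)
      filter_upwards [this] with s hs
      exact hbd s hs
  · refine ⟨∑' i, (if 0 < u i ∧ u i < t then 1 else 0) * psi (r i), ?_⟩
    unfold path
    refine tendsto_tsum_of_dominated_convergence hb ?_ ?_
    · intro i
      refine Tendsto.mul_const _ ?_
      refine tendsto_const_nhds.congr' ?_
      by_cases hu : u i < t
      · have : ∀ᶠ s in 𝓝[<] t, u i < s := nhdsWithin_le_nhds (Ioi_mem_nhds hu)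
        filter_upwards [this] with s hs
        unfold ind
        by_cases h0 : 0 < u i
        · rw [if_pos ⟨h0, hu⟩, if_pos ⟨h0, hs.le⟩]
        · rw [if_neg (fun h => h0 h.1), if_neg (fun h => h0 h.1)]
      · push Not at hu
        filter_upwards [self_mem_nhdsWithin] with s hs
        have hs' : s < t := hs
        unfold ind
        rw [if_neg (fun h => absurd h.2 (not_lt.2 hu)),
          if_neg (fun h => absurd h.2 (not_le.2 (hs'.trans_le hu)))]
    · filter_upwards [self_mem_nhdsWithin] with s hs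
      have hs' : s < t := hs
      exact hbd s (hs'.trans hT)

/-- the range over `[0,1]` is covered by few short intervals -/
lemma path_cover {W R : ℝ} (hR : 1 ≤ R)
    (hs : Summable fun i => ind 1 (u i) * (1 + r i ^ 2)⁻¹)
    (hW : ∑' i, ind 1 (u i) * (1 + r i ^ 2)⁻¹ ≤ W) :
    ∃ (n : ℕ) (y : ℕ → ℝ), (n : ℝ) ≤ (1 + R ^ 2) * W ∧
      ∀ t : ℝ, t ∈ Set.Icc (0 : ℝ) 1 → ∃ k ≤ n, |path u r t - y k| ≤ 2 * (R ^ 15)⁻¹ * W := by
  classical
  have hRp : (0 : ℝ) < R := by linarith
  have hfin : {i | (0 < u i ∧ u i ≤ 1) ∧ |r i| ≤ R}.Finite := by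
    have h1 := hs.tendsto_cofinite_zero
    have h2 := h1.eventually (gt_mem_nhds (show (0 : ℝ) < (1 + R ^ 2)⁻¹ by positivity))
    rw [Filter.eventually_cofinite] at h2
    refine h2.subset ?_
    rintro i ⟨hi, hr⟩
    simp only [Set.mem_ofPred_eq, not_lt]
    have e : ind 1 (u i) = 1 := by unfold ind; rw [if_pos hi]
    rw [e, one_mul]
    apply inv_anti₀ (by positivity)
    have : r i ^ 2 ≤ R ^ 2 := by
      rw [← sq_abs (r i)]; exact pow_le_pow_left₀ (abs_nonneg _) hr 2
    linarith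
  set S : Finset I := hfin.toFinset with hSdef
  have hS : ∀ i, i ∈ S ↔ (0 < u i ∧ u i ≤ 1) ∧ |r i| ≤ R := by
    intro i; rw [hSdef, Set.Finite.mem_toFinset]; rfl
  have hnn : ∀ i, 0 ≤ ind 1 (u i) * (1 + r i ^ 2)⁻¹ := fun i =>
    mul_nonneg (ind_nonneg _ _) (by positivity)
  have hcard : (S.card : ℝ) ≤ (1 + R ^ 2) * W := by
    have h1 : ∑ i ∈ S, ind 1 (u i) * (1 + r i ^ 2)⁻¹ ≤ W :=
      (hs.sum_le_tsum S fun i _ => hnn i).trans hW
    have h2 : (S.card : ℝ) * (1 + R ^ 2)⁻¹ ≤ ∑ i ∈ S, ind 1 (u i) * (1 + r i ^ 2)⁻¹ := by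
      rw [← nsmul_eq_mul]
      apply Finset.card_nsmul_le_sum
      intro i hi
      obtain ⟨hi, hr⟩ := (hS i).1 hi
      have e : ind 1 (u i) = 1 := by unfold ind; rw [if_pos hi]
      rw [e, one_mul]
      apply inv_anti₀ (by positivity)
      have : r i ^ 2 ≤ R ^ 2 := by
        rw [← sq_abs (r i)]; exact pow_le_pow_left₀ (abs_nonneg _) hr 2
      linarith
    have h3 := h2.trans h1
    rw [← div_eq_mul_inv, div_le_iff₀ (by positivity)] at h3
    linarith
  let F : ℝ → Finset I := fun t => S.filter fun i => u i ≤ t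
  have hF : ∀ s t, s ≤ t → F s ⊆ F t := by
    intro s t hst i hi
    simp only [F, Finset.mem_filter] at hi ⊢
    exact ⟨hi.1, hi.2.trans hst⟩
  have hF2 : ∀ s t, (F s).card = (F t).card → F s = F t := by
    intro s t h
    rcases le_total s t with h1 | h1
    · exact Finset.eq_of_subset_of_card_le (hF s t h1) h.ge
    · exact (Finset.eq_of_subset_of_card_le (hF t s h1) h.le).symm
  refine ⟨S.card, fun k => if h : ∃ t, (F t).card = k then ∑ i ∈ F h.choose, psi (r i) else 0,
    hcard, ?_⟩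
  intro t ht
  refine ⟨(F t).card, Finset.card_le_card (Finset.filter_subset _ _), ?_⟩
  have hex : ∃ s, (F s).card = (F t).card := ⟨t, rfl⟩
  show |path u r t - (if h : ∃ s, (F s).card = (F t).card then ∑ i ∈ F h.choose, psi (r i) else 0)| ≤ _
  rw [dif_pos hex]
  rw [hF2 _ _ hex.choose_spec]
  -- the small jumps
  have hst : Summable fun i => ind t (u i) * (1 + r i ^ 2)⁻¹ := by
    refine Summable.of_nonneg_of_le (fun i => mul_nonneg (ind_nonneg _ _) (by positivity)) ?_ hs
    intro i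
    exact mul_le_mul_of_nonneg_right (ind_mono ht.2 _) (by positivity)
  have hsp := summable_path hst
  have e1 : ∑ i ∈ F t, psi (r i) = ∑' i, (if i ∈ S then ind t (u i) * psi (r i) else 0) := by
    rw [tsum_eq_sum (s := S) (fun i hi => if_neg hi)]
    simp only [F]
    rw [Finset.sum_filter]
    refine Finset.sum_congr rfl fun i hi => ?_
    rw [if_pos hi]
    unfold ind
    have h0 := ((hS i).1 hi).1.1
    by_cases h1 : u i ≤ t
    · rw [if_pos h1, if_pos ⟨h0, h1⟩, one_mul]
    · rw [if_neg h1, if_neg (fun h => h1 h.2), zero_mul]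
  have hsS : Summable fun i => (if i ∈ S then ind t (u i) * psi (r i) else 0) :=
    summable_of_ne_finset_zero (s := S) (fun i hi => if_neg hi)
  rw [e1]
  unfold path
  rw [← hsp.tsum_sub hsS]
  have hb : ∀ i, ‖ind t (u i) * psi (r i) - (if i ∈ S then ind t (u i) * psi (r i) else 0)‖ ≤
      2 * (R ^ 15)⁻¹ * (ind 1 (u i) * (1 + r i ^ 2)⁻¹) := by
    intro i
    have hrhs : 0 ≤ 2 * (R ^ 15)⁻¹ * (ind 1 (u i) * (1 + r i ^ 2)⁻¹) :=
      mul_nonneg (by positivity) (hnn i)
    by_cases hi : i ∈ S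
    · rw [if_pos hi, sub_self, norm_zero]; exact hrhs
    · rw [if_neg hi, sub_zero]
      by_cases hu : 0 < u i ∧ u i ≤ t
      · have hu1 : 0 < u i ∧ u i ≤ 1 := ⟨hu.1, hu.2.trans ht.2⟩
        have hr : R < |r i| := by
          by_contra hcon
          push Not at hcon
          exact hi ((hS i).2 ⟨hu1, hcon⟩)
        have e : ind 1 (u i) = 1 := by unfold ind; rw [if_pos hu1]
        have e' : ind t (u i) = 1 := by unfold ind; rw [if_pos hu]
        rw [e, e', one_mul, one_mul, Real.norm_eq_abs]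
        exact abs_psi_le hR hr
      · have e' : ind t (u i) = 0 := by unfold ind; rw [if_neg hu]
        rw [e', zero_mul, norm_zero]; exact hrhs
  rw [← Real.norm_eq_abs]
  have h5 := tsum_of_norm_bounded ((hs.mul_left (2 * (R ^ 15)⁻¹)).hasSum) hb
  refine h5.trans ?_
  rw [tsum_mul_left]
  exact mul_le_mul_of_nonneg_left hW (by positivity)

end Pool.Agent.W851.St
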