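import Pool.Agent.W851.St.PRM
import Pool.Agent.W851.St.Jump

/-! A symmetric `1/17`-stable process. -/

set_option autoImplicit false

open MeasureTheory Filter Topology ProbabilityTheory
open scoped ENNReal NNReal

namespace Pool.Agent.W851.St

/-- intensity of the jump sizes -/
noncomputable def rho : Measure ℝ := ENNReal.ofReal K0⁻¹ • volume

instance : SFinite rho := by unfold rho; infer_instance

/-- intensity -/
noncomputable def Lam : Measure (ℝ × ℝ) := (volume : Measure ℝ).prod rho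

instance : SFinite Lam := by unfold Lam; infer_instance

/-- index set of the points -/
abbrev Ix (ω : Om (ℝ × ℝ)) : Type := Σ b : ℕ, Fin (ω b).1

/-- the points -/
def pt (ω : Om (ℝ × ℝ)) (i : Ix ω) : ℝ × ℝ := (ω i.1).2 i.2

lemma SE_eq (f : ℝ × ℝ → ℝ≥0∞) (ω : Om (ℝ × ℝ)) : SE f ω = ∑' i : Ix ω, f (pt ω i) := by
  unfold SE
  rw [ENNReal.tsum_sigma' (fun i : Ix ω => f (pt ω i))]
  congr 1
  funext b
  rw [tsum_fintype, Finset.sum_range]
  rfl

lemma SR_eq {f : ℝ × ℝ → ℝ} {ω : Om (ℝ × ℝ)} (h : Summable fun i : Ix ω => f (pt ω i)) :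
    SR f ω = ∑' i : Ix ω, f (pt ω i) := by
  unfold SR
  rw [h.tsum_sigma]
  congr 1
  funext b
  rw [tsum_fintype, Finset.sum_range]
  rfl

lemma SE_lt_top {f : ℝ × ℝ → ℝ} {ω : Om (ℝ × ℝ)} (h : Summable fun i : Ix ω => f (pt ω i)) :
    SE (fun x => ‖f x‖ₑ) ω < ∞ := by
  rw [SE_eq]
  have h1 : Summable fun i : Ix ω => ‖f (pt ω i)‖ := h.norm
  have h2 := h1.tsum_ofReal_lt_top
  simpa only [ofReal_norm] using h2

/-- the weight -/
noncomputable def wt (T : ℝ) (p : ℝ × ℝ) : ℝ := ind T p.1 * (1 + p.2 ^ 2)⁻¹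

lemma measurable_wt (T : ℝ) : Measurable (wt T) := by
  unfold wt
  have := measurable_ind T
  fun_prop

lemma wt_nonneg (T : ℝ) (p : ℝ × ℝ) : 0 ≤ wt T p := mul_nonneg (ind_nonneg _ _) (by positivity)

lemma ind_eq_indicator (t : ℝ) : ind t = (Set.Ioc 0 t).indicator 1 := by
  funext v
  unfold ind
  by_cases h : 0 < v ∧ v ≤ t
  · rw [if_pos h, Set.indicator_of_mem (show v ∈ Set.Ioc 0 t from h)]; rfl
  · rw [if_neg h, Set.indicator_of_notMem (show v ∉ Set.Ioc 0 t from h)]

lemma integrable_ind (t : ℝ) : Integrable (ind t) := by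
  rw [ind_eq_indicator]
  exact (integrable_indicator_iff measurableSet_Ioc).2 (by
    simp only [Pi.one_def]
    exact integrableOn_const (by simp) (by simp))

lemma integral_ind {t : ℝ} (ht : 0 ≤ t) : ∫ v, ind t v = t := by
  rw [ind_eq_indicator, integral_indicator_one measurableSet_Ioc]
  simp [Measure.real, ht]

lemma lintegral_wt (T : ℝ) : ∫⁻ p, ENNReal.ofReal (wt T p) ∂Lam < ∞ := by
  have h1 : Integrable (wt T) Lam := by
    unfold wt Lam
    refine Integrable.mul_prod (f := ind T) (g := fun x : ℝ => (1 + x ^ 2)⁻¹) (integrable_ind T) ?_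
    unfold rho
    exact integrable_inv_one_add_sq.smul_measure ENNReal.ofReal_ne_top
  exact h1.lintegral_lt_top

/-- the good event -/
def Good : Set (Om (ℝ × ℝ)) := {ω | ∀ T : ℕ, SE (fun p => ENNReal.ofReal (wt T p)) ω < ∞}

lemma measurableSet_Good : MeasurableSet Good := by
  unfold Good
  rw [Set.ofPred_forall]
  exact MeasurableSet.iInter fun T =>
    measurableSet_lt (meas_SE (measurable_wt T).ennreal_ofReal) measurable_const

lemma ae_Good : ∀ᵐ ω ∂(PM Lam), ω ∈ Good := by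
  have : ∀ T : ℕ, ∀ᵐ ω ∂(PM Lam), SE (fun p => ENNReal.ofReal (wt T p)) ω < ∞ := by
    intro T
    refine ae_lt_top (meas_SE (measurable_wt T).ennreal_ofReal) ?_
    rw [campbell Lam (measurable_wt T).ennreal_ofReal]
    exact (lintegral_wt T).ne
  filter_upwards [ae_all_iff.2 this] with ω hω
  exact hω

lemma good_summable {ω : Om (ℝ × ℝ)} (h : ω ∈ Good) (T : ℕ) :
    Summable fun i : Ix ω => ind T (pt ω i).1 * (1 + (pt ω i).2 ^ 2)⁻¹ := by
  have h1 := h T
  rw [SE_eq] at h1
  have h2 := ENNReal.summable_toReal h1.ne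
  refine h2.congr fun i => ?_
  rw [ENNReal.toReal_ofReal (wt_nonneg _ _)]
  rfl

lemma good_summable' {ω : Om (ℝ × ℝ)} (h : ω ∈ Good) (t : ℝ) :
    Summable fun i : Ix ω => ind t (pt ω i).1 * psi (pt ω i).2 := by
  obtain ⟨T, hT⟩ := exists_nat_ge t
  refine summable_path (u := fun i => (pt ω i).1) (r := fun i => (pt ω i).2) ?_
  refine Summable.of_nonneg_of_le (fun i => mul_nonneg (ind_nonneg _ _) (by positivity)) ?_
    (good_summable h T)
  intro i
  exact mul_le_mul_of_nonneg_right (ind_mono hT _) (by positivity)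

open Classical in
/-- the process -/
noncomputable def X (t : ℝ) (ω : Om (ℝ × ℝ)) : ℝ :=
  if ω ∈ Good then path (fun i => (pt ω i).1) (fun i => (pt ω i).2) t else 0

lemma X_of_good {ω : Om (ℝ × ℝ)} (h : ω ∈ Good) (t : ℝ) :
    X t ω = path (fun i => (pt ω i).1) (fun i => (pt ω i).2) t := by
  unfold X; rw [if_pos h]

lemma measurable_X (t : ℝ) : Measurable (X t) := by
  have h1 : X t = Good.indicator (SR fun p => ind t p.1 * psi p.2) := by
    funext ω
    unfold X
    by_cases h : ω ∈ Good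
    · rw [if_pos h, Set.indicator_of_mem h, SR_eq (f := fun p => ind t p.1 * psi p.2) (good_summable' h t)]
      rfl
    · rw [if_neg h, Set.indicator_of_notMem h]
  rw [h1]
  refine meas_SR_ind ?_ measurableSet_Good fun ω hω => ?_
  · have := measurable_ind t
    have := measurable_psi
    fun_prop
  · exact SE_lt_top (f := fun p => ind t p.1 * psi p.2) (good_summable' hω t)

lemma ind_sub {a b : ℝ} (ha : 0 ≤ a) (hab : a ≤ b) (v : ℝ) :
    ind b v - ind a v = if a < v ∧ v ≤ b then 1 else 0 := by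
  unfold ind
  by_cases h1 : v ≤ a
  · by_cases h0 : 0 < v
    · rw [if_pos ⟨h0, h1.trans hab⟩, if_pos ⟨h0, h1⟩, if_neg (fun h => absurd h.1 (not_lt.2 h1))]
      norm_num
    · rw [if_neg (fun h => h0 h.1), if_neg (fun h => h0 h.1),
        if_neg (fun h => absurd h.1 (not_lt.2 h1))]
      norm_num
  · push Not at h1
    by_cases h2 : v ≤ b
    · rw [if_pos ⟨ha.trans_lt h1, h2⟩, if_neg (fun h => absurd h.2 (not_le.2 h1)),
        if_pos ⟨h1, h2⟩]
      norm_num
    · rw [if_neg (fun h => h2 h.2), if_neg (fun h => absurd h.2 (not_le.2 h1)),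
        if_neg (fun h => h2 h.2)]
      norm_num

section incr
variable {n : ℕ} (t : Fin (n + 1) → ℝ) (θ : Fin n → ℝ)

/-- the test function -/
noncomputable def gf (p : ℝ × ℝ) : ℝ :=
  ∑ j : Fin n, θ j * ((ind (t j.succ) p.1 - ind (t j.castSucc) p.1) * psi p.2)

lemma measurable_gf : Measurable (gf t θ) := by
  unfold gf
  refine Finset.measurable_sum Finset.univ
    (f := fun j (p : ℝ × ℝ) => θ j * ((ind (t j.succ) p.1 - ind (t j.castSucc) p.1) * psi p.2))
    fun j _ => ?_
  have := measurable_psi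
  have := measurable_ind (t j.succ)
  have := measurable_ind (t j.castSucc)
  fun_prop

lemma exp_gf (h0 : 0 ≤ t 0) (hm : Monotone t) (p : ℝ × ℝ) :
    Complex.exp (gf t θ p * Complex.I) - 1 =
      ∑ j : Fin n, ((ind (t j.succ) p.1 - ind (t j.castSucc) p.1 : ℝ) : ℂ) *
        (Complex.exp ((θ j * psi p.2 : ℝ) * Complex.I) - 1) := by
  have hnn : ∀ j : Fin (n + 1), 0 ≤ t j := fun j => h0.trans (hm (Fin.zero_le j))
  have hle : ∀ j : Fin n, t j.castSucc ≤ t j.succ := fun j => hm (Fin.castSucc_le_succ j)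
  unfold gf
  simp only [ind_sub (hnn _) (hle _)]
  by_cases hex : ∃ j : Fin n, t j.castSucc < p.1 ∧ p.1 ≤ t j.succ
  · obtain ⟨j, hj⟩ := hex
    have hk : ∀ k : Fin n, k ≠ j → ¬ (t k.castSucc < p.1 ∧ p.1 ≤ t k.succ) := by
      intro k hkj hk
      rcases lt_or_gt_of_ne hkj with h | h
      · have : t k.succ ≤ t j.castSucc := hm (by
          rw [Fin.le_def]; simp only [Fin.val_succ, Fin.val_castSucc]; exact h)
        linarith [hk.2, hj.1]
      · have : t j.succ ≤ t k.castSucc := hm (by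
          rw [Fin.le_def]; simp only [Fin.val_succ, Fin.val_castSucc]; exact h)
        linarith [hk.1, hj.2]
    rw [Finset.sum_eq_single j (fun k _ hkj => by rw [if_neg (hk k hkj)]; ring)
        (fun h => absurd (Finset.mem_univ j) h),
      Finset.sum_eq_single j (fun k _ hkj => by rw [if_neg (hk k hkj)]; simp)
        (fun h => absurd (Finset.mem_univ j) h), if_pos hj]
    simp
  · push Not at hex
    have hk : ∀ k : Fin n, ¬ (t k.castSucc < p.1 ∧ p.1 ≤ t k.succ) := by
      intro k hk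
      exact absurd hk.2 (not_le.2 (hex k hk.1))
    simp only [hk, if_false]
    simp

lemma integrable_exp_rho (s : ℝ) :
    Integrable (fun x : ℝ => Complex.exp ((s * psi x : ℝ) * Complex.I) - 1) rho := by
  unfold rho
  exact (integrable_exp_psi s).smul_measure ENNReal.ofReal_ne_top

lemma integral_exp_rho (s : ℝ) :
    ∫ x : ℝ, (Complex.exp ((s * psi x : ℝ) * Complex.I) - 1) ∂rho =
      -((|s| ^ (1 / 17 : ℝ) : ℝ) : ℂ) := by
  unfold rho
  rw [integral_smul_measure, int_exp_psi, ENNReal.toReal_ofReal (inv_pos.2 K0_pos).le,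
    Complex.real_smul]
  have : (K0 : ℂ) ≠ 0 := by exact_mod_cast K0_pos.ne'
  push_cast
  field_simp

lemma integrable_term (j : Fin n) :
    Integrable (fun p : ℝ × ℝ => ((ind (t j.succ) p.1 - ind (t j.castSucc) p.1 : ℝ) : ℂ) *
        (Complex.exp ((θ j * psi p.2 : ℝ) * Complex.I) - 1)) Lam := by
  unfold Lam
  refine Integrable.mul_prod (f := fun v : ℝ => ((ind (t j.succ) v - ind (t j.castSucc) v : ℝ) : ℂ))
    (g := fun x : ℝ => Complex.exp ((θ j * psi x : ℝ) * Complex.I) - 1) ?_ (integrable_exp_rho _)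
  exact ((integrable_ind _).sub (integrable_ind _)).ofReal

lemma integral_term (h0 : 0 ≤ t 0) (hm : Monotone t) (j : Fin n) :
    ∫ p : ℝ × ℝ, ((ind (t j.succ) p.1 - ind (t j.castSucc) p.1 : ℝ) : ℂ) *
        (Complex.exp ((θ j * psi p.2 : ℝ) * Complex.I) - 1) ∂Lam =
      ((-(t j.succ - t j.castSucc) * |θ j| ^ (1 / 17 : ℝ) : ℝ) : ℂ) := by
  have hnn : ∀ j : Fin (n + 1), 0 ≤ t j := fun j => h0.trans (hm (Fin.zero_le j))
  unfold Lam
  rw [integral_prod_mul (fun v : ℝ => ((ind (t j.succ) v - ind (t j.castSucc) v : ℝ) : ℂ))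
    (fun x : ℝ => Complex.exp ((θ j * psi x : ℝ) * Complex.I) - 1), integral_exp_rho]
  have : ∫ v : ℝ, ((ind (t j.succ) v - ind (t j.castSucc) v : ℝ) : ℂ) =
      ((t j.succ - t j.castSucc : ℝ) : ℂ) := by
    rw [integral_complex_ofReal, integral_sub (integrable_ind _) (integrable_ind _),
      integral_ind (hnn _), integral_ind (hnn _)]
  rw [this]
  push_cast
  ring

theorem char_incr (h0 : 0 ≤ t 0) (hm : Monotone t) :
    ∫ ω, Complex.exp ((∑ j : Fin n, θ j * (X (t j.succ) ω - X (t j.castSucc) ω) : ℝ) * Complex.I)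
        ∂(PM Lam) =
      ∏ j : Fin n, ((Real.exp (-(t j.succ - t j.castSucc) * |θ j| ^ (1 / 17 : ℝ)) : ℝ) : ℂ) := by
  have hsum : ∀ ω ∈ Good, Summable fun i : Ix ω => gf t θ (pt ω i) := by
    intro ω hω
    unfold gf
    refine summable_sum fun j _ => ?_
    refine Summable.mul_left _ ?_
    simp_rw [sub_mul]
    exact (good_summable' hω _).sub (good_summable' hω _)
  have heq : ∀ ω ∈ Good, ∑ j : Fin n, θ j * (X (t j.succ) ω - X (t j.castSucc) ω) =
      SR (gf t θ) ω := by
    intro ω hω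
    rw [SR_eq (hsum ω hω)]
    unfold gf
    rw [Summable.tsum_finsetSum]
    · refine Finset.sum_congr rfl fun j _ => ?_
      rw [tsum_mul_left, X_of_good hω, X_of_good hω]
      unfold path
      rw [← (good_summable' hω _).tsum_sub (good_summable' hω _)]
      simp_rw [sub_mul]
    · intro j _
      refine Summable.mul_left _ ?_
      simp_rw [sub_mul]
      exact (good_summable' hω _).sub (good_summable' hω _)
  have h1 : ∫ ω, Complex.exp ((∑ j : Fin n, θ j * (X (t j.succ) ω - X (t j.castSucc) ω) : ℝ) *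
      Complex.I) ∂(PM Lam) = ∫ ω, Complex.exp (SR (gf t θ) ω * Complex.I) ∂(PM Lam) := by
    refine integral_congr_ae ?_
    filter_upwards [ae_Good] with ω hω
    rw [heq ω hω]
  have hint : Integrable (fun p => Complex.exp (gf t θ p * Complex.I) - 1) Lam := by
    simp_rw [exp_gf t θ h0 hm]
    exact integrable_finsetSum _ fun j _ => integrable_term t θ j
  rw [h1, char_functional Lam (measurable_gf t θ) (by
    filter_upwards [ae_Good] with ω hω
    exact SE_lt_top (hsum ω hω)) hint]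
  simp_rw [exp_gf t θ h0 hm]
  rw [integral_finsetSum _ fun j _ => integrable_term t θ j, Complex.exp_sum]
  refine Finset.prod_congr rfl fun j _ => ?_
  rw [integral_term t θ h0 hm, Complex.ofReal_exp]

end incr

lemma char_two {s t : ℝ} (hs : 0 ≤ s) (hst : s ≤ t) (ξ : ℝ) :
    ∫ ω, Complex.exp (((ξ * (X t ω - X s ω) : ℝ) : ℂ) * Complex.I) ∂(PM Lam) =
      ((Real.exp (-(t - s) * |ξ| ^ (1 / 17 : ℝ)) : ℝ) : ℂ) := by
  have h := char_incr (n := 1) ![s, t] ![ξ] (by simpa using hs) (by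
    intro i j hij
    fin_cases i <;> fin_cases j <;> simp_all)
  simpa using h

lemma charFun_map_real (Y : Om (ℝ × ℝ) → ℝ) (hY : Measurable Y) (ξ : ℝ) :
    charFun ((PM Lam).map Y) ξ = ∫ ω, Complex.exp (((ξ * Y ω : ℝ) : ℂ) * Complex.I) ∂(PM Lam) := by
  rw [charFun_apply, integral_map hY.aemeasurable (by fun_prop)]
  simp

theorem indep_incr (n : ℕ) (t : Fin (n + 1) → ℝ) (h0 : 0 ≤ t 0) (hm : StrictMono t) :
    iIndepFun (fun (i : Fin n) (ω : Om (ℝ × ℝ)) => X (t i.succ) ω - X (t i.castSucc) ω)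
      (PM Lam) := by
  have hmeas : ∀ i : Fin n, Measurable fun ω : Om (ℝ × ℝ) => X (t i.succ) ω - X (t i.castSucc) ω :=
    fun i => (measurable_X _).sub (measurable_X _)
  rw [iIndepFun_iff_charFun_pi fun i => (hmeas i).aemeasurable]
  intro ξ
  have hm2 : Measurable fun ω : Om (ℝ × ℝ) =>
      WithLp.toLp 2 fun x : Fin n => X (t x.succ) ω - X (t x.castSucc) ω :=
    (MeasurableEquiv.toLp 2 (Fin n → ℝ)).measurable.comp (measurable_pi_lambda _ hmeas)
  rw [charFun_apply, integral_map hm2.aemeasurable (by fun_prop)]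
  have h := char_incr t (fun j => ξ.ofLp j) h0 hm.monotone
  have e1 : ∀ ω : Om (ℝ × ℝ), (inner ℝ (WithLp.toLp 2 fun x : Fin n =>
      X (t x.succ) ω - X (t x.castSucc) ω) ξ : ℝ) =
      ∑ j : Fin n, ξ.ofLp j * (X (t j.succ) ω - X (t j.castSucc) ω) := by
    intro ω
    rw [PiLp.inner_apply]
    refine Finset.sum_congr rfl fun j _ => ?_
    simp
  simp_rw [e1]
  rw [h]
  refine Finset.prod_congr rfl fun j _ => ?_
  rw [charFun_map_real _ (hmeas j)]
  exact (char_two (h0.trans (hm.monotone (Fin.zero_le _)))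
    (hm.monotone (Fin.castSucc_le_succ j)) _).symm

end Pool.Agent.W851.St
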